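import Pool.Agent.H69.LQ.Lib

/-!
# (SA) estimates for `p (R)`
-/

set_option autoImplicit false

open MeasureTheory Metric Set
open scoped ENNReal
open Pool.Agent.H85.LK (E adm lam Ann)
open Pool.Agent.H69.LQ

namespace Pool.Agent.H52.LQ

theorem abs_coord_le {N : ℕ} (θ : Sp N) (j : Fin N) : |(θ : E N) j| ≤ 1 := by
  have h1 := sum_sq_sp θ
  have h2 : (θ : E N) j ^ 2 ≤ 1 := by
    rw [← h1]
    exact Finset.single_le_sum (f := fun i => (θ : E N) i ^ 2) (fun i _ => sq_nonneg _)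
      (Finset.mem_univ j)
  rwa [sq_le_one_iff_abs_le_one] at h2

theorem pow_pos_of_ne {q : ℝ} (h : q ≠ 0) : 0 < q ^ 2 := by positivity

theorem pf_SA (hMP : T_MP) (hMO : T_MO) (hPH : T_PH) (hPV : T_PV) (hAS : T_AS) : T_SA := by
  intro N L hN hF
  obtain ⟨K, δ₁, hK, hδ₁, hδ₁', hA⟩ := hAS N L hN hF
  obtain ⟨hPH1, hPH2, -⟩ := hPH N L hN
  obtain ⟨-, -, hq0, -⟩ := hPV N L hN hF
  have hone := (hMO N hN).1
  have hN' : (2 : ℝ) ≤ N := by exact_mod_cast hN
  have hNpos : (0 : ℝ) < N := by linarith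
  set q : ℝ := dph N L 1 1 with hq
  set e₁ : ℝ := Real.exp 1 with he₁
  have he0 : 0 < e₁ := Real.exp_pos 1
  have hqa : 0 < |q| := abs_pos.2 hq0.ne
  set M : ℝ := |q| / N + |q| * e₁ + K with hM
  have hM0 : 0 < M := by positivity
  have hpc : Continuous (ph N L 1) := (hPH2 1).1.continuous
  have hdc : Continuous (dph N L 1) := (hPH2 1).2.continuous
  have hffc : Continuous (ff N L) := by
    unfold ff
    exact (((continuous_id.pow (N - 1)).mul hdc).mul hpc).neg
  refine ⟨(N + 1) * M ^ 2 * (5 * K + 25) + 5 * K + K ^ 2, min (q ^ 2 / N) (1 / K ^ 2),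
    min (δ₁ / 5) (1 / 20), by positivity, ?_, lt_min (by positivity) (by norm_num),
    min_le_right _ _, ?_⟩
  · exact lt_min (div_pos (pow_pos_of_ne hq0.ne) hNpos) (by positivity)
  intro δ R hδ hδ' hRm hR hg hi
  have hδ5 : 5 * δ ≤ δ₁ := by
    have := hδ'.trans (min_le_left _ _)
    linarith
  have hδ20 : δ ≤ 1 / 20 := hδ'.trans (min_le_right _ _)
  have habs : ∀ θ, |R θ - 1| ≤ 5 * δ := by
    intro θ
    have h1 := hR θ
    rw [abs_le]
    constructor <;> linarith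
  have hAθ := fun θ => hA (R θ) ((habs θ).trans hδ5)
  -- bounded measurable functions
  have bR : BM R := BM.mk' hRm 2 fun θ => by
    have h1 := hR θ
    rw [abs_le]
    constructor <;> linarith
  have bRN : BM fun θ => R θ ^ N := bR.pow N
  have bRN1 : BM fun θ => R θ ^ N - 1 := bRN.sub (BM_const 1)
  have bR1 : BM fun θ => R θ - 1 := bR.sub (BM_const 1)
  have bS : BM fun θ => (R θ - 1) ^ 2 := bR1.pow 2
  have bp : BM fun θ => ph N L 1 (R θ) := bR.comp hpc
  have bp2 : BM fun θ => ph N L 1 (R θ) ^ 2 := bp.pow 2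
  have bff : BM fun θ => ff N L (R θ) := bR.comp hffc
  have bqq : BM fun θ => qq N (R θ) := by
    have h1 : Continuous fun x : ℝ × Sp N => x.1 ^ N * Real.exp (-x.1 ^ 2) := by fun_prop
    exact BM_int (F := fun x : ℝ × Sp N => x.1 ^ N * Real.exp (-x.1 ^ 2)) h1 hRm 0 (1 + 5 * δ)
      fun θ => ⟨by linarith [(hR θ).1], (hR θ).2⟩
  set S : ℝ := av (fun θ => (R θ - 1) ^ 2) with hS
  have hS0 : 0 ≤ S := av_sq_nonneg _
  set g : ℝ := 1 - av (fun θ => R θ ^ N) with hgdef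
  have hav1 : av (fun θ => R θ ^ N - 1) = -g := by
    have h1 := av_sub bRN (BM_const (N := N) 1)
    rw [hone] at h1
    rw [h1, hgdef]
    ring
  -- size of `g` and `S`
  have hgle : g ≤ 5 * K * δ := by
    have h1 : |av (fun θ => R θ ^ N - 1)| ≤ av (fun _ : Sp N => K * (5 * δ)) := by
      refine abs_av_le bRN1 (BM_const _) fun θ => ?_
      exact (hAθ θ).2.2.2.2.1.trans (mul_le_mul_of_nonneg_left (habs θ) hK.le)
    have h2 : av (fun _ : Sp N => K * (5 * δ)) = K * (5 * δ) := by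
      have h3 := av_const_mul (N := N) (K * (5 * δ)) fun _ => 1
      rw [hone] at h3
      simpa only [mul_one] using h3
    rw [hav1, abs_neg, h2] at h1
    have h3 := le_abs_self g
    linarith
  have hSle : S ≤ 25 * δ := by
    have h1 : S ≤ av (fun _ : Sp N => 25 * δ * 1) := by
      refine av_mono bS (BM_const _) fun θ => ?_
      have h2 := habs θ
      have h3 : (R θ - 1) ^ 2 ≤ (5 * δ) ^ 2 := by
        rw [← sq_abs]
        exact pow_le_pow_left₀ (abs_nonneg _) h2 2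
      nlinarith
    rw [av_const_mul, hone, mul_one] at h1
    exact h1
  have hKS : av (fun θ => K * (R θ - 1) ^ 2) = K * S := av_const_mul _ _
  -- the means
  have hm0 : |av (fun θ => ph N L 1 (R θ))| ≤ M * (g + S) := by
    have h1 : |av (fun θ => ph N L 1 (R θ) - q / N * (R θ ^ N - 1))| ≤ K * S := by
      rw [← hKS]
      exact abs_av_le (bp.sub (bRN1.const_mul _)) (bS.const_mul K) fun θ => (hAθ θ).2.2.2.2.2.1
    rw [av_sub bp (bRN1.const_mul _), av_const_mul, hav1] at h1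
    have h2 : |av (fun θ => ph N L 1 (R θ))| ≤ K * S + |q / N * -g| := by
      have h3 := abs_add_le (av (fun θ => ph N L 1 (R θ)) - q / N * -g) (q / N * -g)
      rw [sub_add_cancel] at h3
      linarith
    have h3 : |q / N * -g| = |q| / N * g := by
      rw [abs_mul, abs_neg, abs_div, abs_of_pos hNpos, abs_of_nonneg hg]
    rw [h3] at h2
    have h4 : 0 ≤ |q| * e₁ := by positivity
    have h5 : 0 ≤ |q| / N := by positivity
    rw [hM]
    nlinarith
  have hmj : ∀ j : Fin N, |av (fun θ => ph N L 1 (R θ) * (θ : E N) j)| ≤ M * (g + S) := by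
    intro j
    have bQ : BM fun θ => (qq N (R θ) - qq N 1) * (θ : E N) j :=
      (bqq.sub (BM_const _)).mul (BM_coord j)
    have bpj : BM fun θ => ph N L 1 (R θ) * (θ : E N) j := bp.mul (BM_coord j)
    have h1 : |av (fun θ => ph N L 1 (R θ) * (θ : E N) j -
        q * e₁ * ((qq N (R θ) - qq N 1) * (θ : E N) j))| ≤ K * S := by
      rw [← hKS]
      refine abs_av_le (bpj.sub (bQ.const_mul _)) (bS.const_mul K) fun θ => ?_
      have h2 : ph N L 1 (R θ) * (θ : E N) j - q * e₁ * ((qq N (R θ) - qq N 1) * (θ : E N) j) =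
          (ph N L 1 (R θ) - q * e₁ * (qq N (R θ) - qq N 1)) * (θ : E N) j := by ring
      rw [h2, abs_mul]
      have h3 := (hAθ θ).2.2.2.2.2.2.1
      have h4 := abs_coord_le θ j
      calc |ph N L 1 (R θ) - q * e₁ * (qq N (R θ) - qq N 1)| * |(θ : E N) j|
          ≤ K * (R θ - 1) ^ 2 * 1 := mul_le_mul h3 h4 (abs_nonneg _) (by positivity)
        _ = K * (R θ - 1) ^ 2 := mul_one _
    rw [av_sub bpj (bQ.const_mul _), av_const_mul] at h1
    have h2 : |av (fun θ => ph N L 1 (R θ) * (θ : E N) j)| ≤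
        K * S + |q * e₁ * av (fun θ => (qq N (R θ) - qq N 1) * (θ : E N) j)| := by
      have h3 := abs_add_le (av (fun θ => ph N L 1 (R θ) * (θ : E N) j) -
        q * e₁ * av (fun θ => (qq N (R θ) - qq N 1) * (θ : E N) j))
        (q * e₁ * av (fun θ => (qq N (R θ) - qq N 1) * (θ : E N) j))
      rw [sub_add_cancel] at h3
      linarith
    have h3 : |q * e₁ * av (fun θ => (qq N (R θ) - qq N 1) * (θ : E N) j)| ≤ |q| * e₁ * g := by
      rw [abs_mul, abs_mul, abs_of_pos he0]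
      exact mul_le_mul_of_nonneg_left (hi j) (by positivity)
    have h4 : 0 ≤ |q| * e₁ := by positivity
    have h5 : 0 ≤ |q| / N := by positivity
    rw [hM]
    nlinarith
  have hgS : 0 ≤ g + S := add_nonneg hg hS0
  have hgS' : g + S ≤ (5 * K + 25) * δ := by linarith
  have hsq : ∀ x : ℝ, |x| ≤ M * (g + S) → x ^ 2 ≤ M ^ 2 * (g + S) ^ 2 := by
    intro x hx
    rw [← sq_abs, ← mul_pow]
    exact pow_le_pow_left₀ (abs_nonneg _) hx 2
  refine ⟨?_, ?_, ?_, ?_⟩
  · have h1 := hsq _ hm0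
    have h2 : ∑ j : Fin N, av (fun θ => ph N L 1 (R θ) * (θ : E N) j) ^ 2 ≤
        N * (M ^ 2 * (g + S) ^ 2) := by
      calc ∑ j : Fin N, av (fun θ => ph N L 1 (R θ) * (θ : E N) j) ^ 2
          ≤ ∑ _j : Fin N, M ^ 2 * (g + S) ^ 2 := Finset.sum_le_sum fun j _ => hsq _ (hmj j)
        _ = N * (M ^ 2 * (g + S) ^ 2) := by
            rw [Finset.sum_const, Finset.card_univ, Fintype.card_fin, nsmul_eq_mul]
    have h3 : (g + S) ^ 2 ≤ (5 * K + 25) * δ * (g + S) := by
      rw [sq]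
      exact mul_le_mul_of_nonneg_right hgS' hgS
    have h4 : (N + 1) * M ^ 2 * (g + S) ^ 2 ≤ (N + 1) * M ^ 2 * ((5 * K + 25) * δ * (g + S)) :=
      mul_le_mul_of_nonneg_left h3 (by positivity)
    have h5 : 0 ≤ (5 * K + K ^ 2) * δ * (g + S) := by positivity
    calc av (fun θ => ph N L 1 (R θ)) ^ 2 +
          ∑ j : Fin N, av (fun θ => ph N L 1 (R θ) * (θ : E N) j) ^ 2
        ≤ M ^ 2 * (g + S) ^ 2 + N * (M ^ 2 * (g + S) ^ 2) := add_le_add h1 h2
      _ = (N + 1) * M ^ 2 * (g + S) ^ 2 := by ring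
      _ ≤ (N + 1) * M ^ 2 * ((5 * K + 25) * δ * (g + S)) := h4
      _ ≤ (N + 1) * M ^ 2 * ((5 * K + 25) * δ * (g + S)) + (5 * K + K ^ 2) * δ * (g + S) := by
          linarith
      _ = ((N + 1) * M ^ 2 * (5 * K + 25) + 5 * K + K ^ 2) * δ * (g + S) := by ring
  · have b1 : BM fun θ => -(q ^ 2 / N) * (R θ ^ N - 1) := bRN1.const_mul _
    have b2 : BM fun θ => ((N : ℝ) - 1) * ph N L 1 (R θ) ^ 2 := bp2.const_mul _
    have b3 : BM fun θ => 5 * K * δ * (R θ - 1) ^ 2 := bS.const_mul _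
    have h1 : av (fun θ => (-(q ^ 2 / N) * (R θ ^ N - 1) + ((N : ℝ) - 1) * ph N L 1 (R θ) ^ 2) -
        5 * K * δ * (R θ - 1) ^ 2) ≤ av (fun θ => ff N L (R θ)) := by
      refine av_mono ((b1.add b2).sub b3) bff fun θ => ?_
      have h2 := (hAθ θ).1
      have h3 : K * |R θ - 1| * (R θ - 1) ^ 2 ≤ K * (5 * δ) * (R θ - 1) ^ 2 :=
        mul_le_mul_of_nonneg_right (mul_le_mul_of_nonneg_left (habs θ) hK.le) (sq_nonneg _)
      linarith
    rw [av_sub (b1.add b2) b3, av_add b1 b2, av_const_mul, av_const_mul, av_const_mul, hav1] at h1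
    have h2 : min (q ^ 2 / N) (1 / K ^ 2) * g ≤ q ^ 2 / N * g :=
      mul_le_mul_of_nonneg_right (min_le_left _ _) hg
    have h3 : 0 ≤ ((N + 1) * M ^ 2 * (5 * K + 25) + K ^ 2) * δ * S := by positivity
    have h4 : -(q ^ 2 / N) * -g = q ^ 2 / N * g := by ring
    rw [h4] at h1
    have h5 : ((N + 1) * M ^ 2 * (5 * K + 25) + 5 * K + K ^ 2) * δ * S =
        ((N + 1) * M ^ 2 * (5 * K + 25) + K ^ 2) * δ * S + 5 * K * δ * S := by ring
    rw [h5]
    linarith
  · have h1 : S ≤ K ^ 2 * av (fun θ => ph N L 1 (R θ) ^ 2) := by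
      rw [← av_const_mul]
      refine av_mono bS (bp2.const_mul _) fun θ => ?_
      have h2 := (hAθ θ).2.1
      rw [← sq_abs (R θ - 1), ← sq_abs (ph N L 1 (R θ)), ← mul_pow]
      exact pow_le_pow_left₀ (abs_nonneg _) h2 2
    have h2 : min (q ^ 2 / N) (1 / K ^ 2) * S ≤ 1 / K ^ 2 * S :=
      mul_le_mul_of_nonneg_right (min_le_right _ _) hS0
    have h3 : 1 / K ^ 2 * S ≤ av (fun θ => ph N L 1 (R θ) ^ 2) := by
      rw [one_div, inv_mul_le_iff₀ (by positivity)]
      exact h1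
    exact h2.trans h3
  · have h1 : av (fun θ => ph N L 1 (R θ) ^ 2) ≤ K ^ 2 * S := by
      rw [hS, ← av_const_mul]
      refine av_mono bp2 (bS.const_mul _) fun θ => ?_
      have h2 := (hAθ θ).2.2.1
      rw [← sq_abs (R θ - 1), ← sq_abs (ph N L 1 (R θ)), ← mul_pow]
      exact pow_le_pow_left₀ (abs_nonneg _) h2 2
    have h2 : 0 ≤ ((N + 1) * M ^ 2 * (5 * K + 25) + 5 * K) * S := by positivity
    have h3 : ((N + 1) * M ^ 2 * (5 * K + 25) + 5 * K + K ^ 2) * S =
        ((N + 1) * M ^ 2 * (5 * K + 25) + 5 * K) * S + K ^ 2 * S := by ring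
    rw [h3]
    linarith

end Pool.Agent.H52.LQ
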