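import Pool.Agent.H69.LQ.Lib

/-!
# (U2) the functions `α θ_i`
-/

set_option autoImplicit false

open MeasureTheory Metric Set
open scoped ENNReal
open Pool.Agent.H85.LK (E adm lam Ann)
open Pool.Agent.H69.LQ

namespace Pool.Agent.H52.LQ

theorem n1_nonneg {N : ℕ} (F : Sp N → ℝ) : 0 ≤ n1 F := by
  unfold n1
  exact div_nonneg (Finset.sum_nonneg fun j _ => sq_nonneg _) (Nat.cast_nonneg N)

theorem pf_U2 (hMP : T_MP) (hMO : T_MO) (hPY : T_PY) (hQU : T_QU) (hH3 : T_H3) : T_U2 := by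
  intro N D hN hD
  obtain ⟨C₃, hC₃, h3⟩ := hH3 N hN
  have hN' : (2 : ℝ) ≤ N := by exact_mod_cast hN
  set q : ℝ := D + N - 1 with hq
  have hq0 : 0 < q := by
    by_contra h
    have h1 : ((N : ℝ) + 1) * q ≤ 0 := mul_nonpos_of_nonneg_of_nonpos (by linarith) (not_lt.1 h)
    linarith
  set β : ℝ := (((N : ℝ) + 1) * q - 3) / (N + 4) with hβ
  have hβ0 : 0 < β := div_pos (by linarith) (by linarith)
  set s : ℝ := min 1 (β / 2 * ((N + 4) / (3 * (q + 1)))) with hs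
  have hs0 : 0 < s := lt_min one_pos (by positivity)
  have hs1 : s ≤ 1 := min_le_left _ _
  have hs2 : (q + 1) * s * (3 / ((N : ℝ) + 4)) ≤ β / 2 := by
    have h1 : s ≤ β / 2 * ((N + 4) / (3 * (q + 1))) := min_le_right _ _
    have h2 : (q + 1) * (3 / ((N : ℝ) + 4)) * s ≤
        (q + 1) * (3 / ((N : ℝ) + 4)) * (β / 2 * ((N + 4) / (3 * (q + 1)))) :=
      mul_le_mul_of_nonneg_left h1 (by positivity)
    have h3 : (q + 1) * (3 / ((N : ℝ) + 4)) * (β / 2 * ((N + 4) / (3 * (q + 1)))) = β / 2 := by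
      field_simp
    linarith
  refine ⟨β / 2, (q + 1) * (C₃ / s) + |D| + 1, by positivity, by positivity, ?_⟩
  intro α K hα hK
  have hDK : D ≤ K := by
    have h1 := le_abs_self D
    have h2 : 0 ≤ (q + 1) * (C₃ / s) := by positivity
    linarith
  have hBM : ∀ i : Fin N, BM fun θ : Sp N => α θ * (θ : E N) i := fun i => hα.mul (BM_coord i)
  set S : ℝ := av (fun θ => α θ ^ 2) with hS
  have hS0 : 0 ≤ S := av_sq_nonneg α
  set X₀ : ℝ := ∑ i : Fin N, n0 (fun θ : Sp N => α θ * (θ : E N) i) with hX₀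
  set X₁ : ℝ := ∑ i : Fin N, n1 (fun θ : Sp N => α θ * (θ : E N) i) with hX₁
  set X₂ : ℝ := ∑ i : Fin N, n2 (fun θ : Sp N => α θ * (θ : E N) i) with hX₂
  set X₃ : ℝ := ∑ i : Fin N, n3 (fun θ : Sp N => α θ * (θ : E N) i) with hX₃
  set Y : ℝ := av α ^ 2 + ∑ j, av (fun θ : Sp N => α θ * (θ : E N) j) ^ 2 with hY
  have hX₁0 : 0 ≤ X₁ := Finset.sum_nonneg fun i _ => n1_nonneg _
  have hXY : X₀ ≤ Y := by
    have h1 : X₀ = ∑ j, av (fun θ : Sp N => α θ * (θ : E N) j) ^ 2 := rfl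
    rw [h1, hY]
    have h2 := sq_nonneg (av α)
    linarith
  have hX₀0 : 0 ≤ X₀ := Finset.sum_nonneg fun i _ => sq_nonneg _
  -- Pythagoras
  have hsum : S = X₀ + X₁ + X₂ + X₃ := by
    have h1 : ∀ i : Fin N, av (fun θ : Sp N => (α θ * (θ : E N) i) ^ 2) =
        n0 (fun θ : Sp N => α θ * (θ : E N) i) + n1 (fun θ : Sp N => α θ * (θ : E N) i) +
          n2 (fun θ : Sp N => α θ * (θ : E N) i) + n3 (fun θ : Sp N => α θ * (θ : E N) i) :=
      fun i => (hPY N _ hN (hBM i)).1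
    have h2 : S = ∑ i : Fin N, av (fun θ : Sp N => (α θ * (θ : E N) i) ^ 2) := by
      rw [← av_sum Finset.univ fun i _ => (hBM i).pow 2, hS]
      congr 1
      funext θ
      have h3 : ∀ i : Fin N, (α θ * (θ : E N) i) ^ 2 = α θ ^ 2 * (θ : E N) i ^ 2 :=
        fun i => mul_pow _ _ _
      rw [Finset.sum_congr rfl fun i _ => h3 i, ← Finset.mul_sum, sum_sq_sp, mul_one]
    rw [h2, Finset.sum_congr rfl fun i _ => h1 i, Finset.sum_add_distrib, Finset.sum_add_distrib,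
      Finset.sum_add_distrib]
  have hH := h3 α s hα hs0 hs1
  have hR : ∑ i : Fin N, (-(N : ℝ) * n2 (fun θ => α θ * (θ : E N) i) +
      D * n3 (fun θ => α θ * (θ : E N) i) + K * n1 (fun θ => α θ * (θ : E N) i)) =
      -(N : ℝ) * X₂ + D * X₃ + K * X₁ := by
    rw [Finset.sum_add_distrib, Finset.sum_add_distrib, ← Finset.mul_sum, ← Finset.mul_sum,
      ← Finset.mul_sum]
  rw [hR]
  have hX₃' : X₃ = S - X₀ - X₁ - X₂ := by linarith
  have h4 : ((N : ℝ) - 1) * S + (-(N : ℝ) * X₂ + D * X₃ + K * X₁) =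
      q * S - (q + 1) * X₂ - D * X₀ + (K - D) * X₁ := by
    rw [hX₃', hq]
    ring
  rw [h4]
  have h5 : (q + 1) * X₂ ≤ (q + 1) * ((1 + s) * (3 / ((N : ℝ) + 4)) * S + C₃ / s * Y) :=
    mul_le_mul_of_nonneg_left hH (by linarith)
  have h6 : D * X₀ ≤ |D| * Y :=
    (mul_le_mul_of_nonneg_right (le_abs_self D) hX₀0).trans
      (mul_le_mul_of_nonneg_left hXY (abs_nonneg D))
  have h7 : 0 ≤ (K - D) * X₁ := mul_nonneg (by linarith) hX₁0
  have h8 : (q + 1) * s * (3 / ((N : ℝ) + 4)) * S ≤ β / 2 * S :=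
    mul_le_mul_of_nonneg_right hs2 hS0
  have h9 : q * S - (q + 1) * (3 / ((N : ℝ) + 4)) * S = β * S := by
    rw [hβ]
    field_simp
    ring
  have hY0 : 0 ≤ Y := hX₀0.trans hXY
  have h10 : (q + 1) * ((1 + s) * (3 / ((N : ℝ) + 4)) * S + C₃ / s * Y) =
      (q + 1) * (3 / ((N : ℝ) + 4)) * S + (q + 1) * s * (3 / ((N : ℝ) + 4)) * S +
        (q + 1) * (C₃ / s) * Y := by ring
  have h11 : β / 2 * S - ((q + 1) * (C₃ / s) + |D| + 1) * Y =
      β / 2 * S - (q + 1) * (C₃ / s) * Y - |D| * Y - Y := by ring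
  rw [h11]
  linarith

end Pool.Agent.H52.LQ
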